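import Pool.Agent.U358.GZ.Fin
import Pool.Agent.U739.GE.GOOD

/-! Project GZ, package DSCN: the sizes of the two Selmer groups of the twists by `-D`. -/

set_option autoImplicit false
set_option linter.unusedVariables false

namespace Pool.Agent.U358.GZ

open Finset

theorem good {a b d : ℤ} {p : ℕ} [hp : Fact p.Prime] (h2 : p ≠ 2) (hb : ¬ (p : ℤ) ∣ b)
    (hc : ¬ (p : ℤ) ∣ a ^ 2 - 4 * b) (hd : ¬ (p : ℤ) ∣ d) : QSolv ℚ_[p] a b d :=
  Pool.Agent.U739.GE.t_GOOD a b d p h2 hb hc hd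

/-- the split primes -/
def Pf (S : Finset ℕ) : Finset ℕ := S.filter (fun p => p % 8 = 1 ∨ p % 8 = 7)

/-- the number -/
def DD (S : Finset ℕ) : ℤ := ((∏ q ∈ S, q : ℕ) : ℤ)

section

variable {S : Finset ℕ} (hS : ∀ q ∈ S, q.Prime ∧ q ≠ 2)

include hS in
theorem hPf : ∀ p ∈ Pf S, p.Prime ∧ (p % 8 = 1 ∨ p % 8 = 7) := fun p hp =>
  ⟨(hS p (Finset.mem_filter.1 hp).1).1, (Finset.mem_filter.1 hp).2⟩

include hS in
theorem two_nsq {q : ℕ} [hq : Fact q.Prime] (hqS : q ∈ S) (hqP : q ∉ Pf S) :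
    ¬ IsSquare (2 : ZMod q) := by
  intro h
  have h1 := (ZMod.exists_sq_eq_two_iff (hS q hqS).2).1 h
  exact hqP (Finset.mem_filter.2 ⟨hqS, h1⟩)

include hS in
theorem supp {a b c1 : ℤ} (hb : ∀ l : ℕ, l.Prime → (l : ℤ) ∣ b → l = 2)
    (hc : a ^ 2 - 4 * b = 2 * c1 ^ 2) (hc2 : ∀ l : ℕ, l.Prime → (l : ℤ) ∣ c1 → l = 2) {d : ℤ}
    (hd : Squarefree d) (hq : ∀ (l : ℕ) [Fact l.Prime], QSolv ℚ_[l] (a * DD S) (b * DD S ^ 2) d) :
    ∀ l : ℕ, l.Prime → (l : ℤ) ∣ d → l = 2 ∨ l ∈ Pf S := by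
  intro l hl hld
  have : Fact l.Prime := ⟨hl⟩
  have hlP := Nat.prime_iff_prime_int.1 hl
  have h1 := (lsol_of_qq hd (hq l)).dvdB hd hld
  rcases hlP.dvd_or_dvd h1 with h2 | h2
  · exact Or.inl (hb l hl h2)
  · right
    have h3 : (l : ℤ) ∣ DD S := hlP.dvd_of_dvd_pow h2
    have h4 : l ∈ S := (dvd_prod_iff (fun q hq => (hS q hq).1) hl).1 h3
    by_contra h5
    have h6 := two_nsq hS h4 h5
    refine inert_dvd (q := l) (a := a) (b := b) (M := DD S) (d := d) ?_ (hq l) hd
      (sqf_prod fun q hq => (hS q hq).1) h3 hld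
    rw [hc]
    rintro ⟨s, hs⟩
    have hc1 : (c1 : ZMod l) ≠ 0 := by
      intro h0
      rw [ZMod.intCast_zmod_eq_zero_iff_dvd] at h0
      exact (hS l h4).2 (hc2 l hl h0)
    apply h6
    refine ⟨s / c1, ?_⟩
    rw [div_mul_div_comm, ← hs]
    push_cast
    field_simp

include hS in
theorem mem_iff {a b c1 c2 : ℤ} (hb : b = 2 * c2 ^ 2) (hb2 : ∀ l : ℕ, l.Prime → (l : ℤ) ∣ b → l = 2)
    (hc : ∀ l : ℕ, l.Prime → (l : ℤ) ∣ a ^ 2 - 4 * b → l = 2) (κ : ℕ → ZMod 2)
    (hκ : ∀ p ∈ Pf S, ∀ [Fact p.Prime], ∀ D1 d1 : ℤ, Squarefree (p * d1) → Squarefree (p * D1) →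
      (QSolv ℚ_[p] (a * (p * D1)) (b * (p * D1) ^ 2) (p * d1) ↔
        nzz (d1 : ZMod p) + nzz (D1 : ZMod p) + κ p = 0)) (ε δ : Bool) (x : Pf S → ZMod 2) :
    (∀ (l : ℕ) [Fact l.Prime], l ≠ 2 → QSolv ℚ_[l] (a * DD S) (b * DD S ^ 2) (V (Pf S) ε δ x)) ↔
      ∀ p : Pf S, (if ε then s4 p else 0) +
        (∑ q : Pf S, if (q : ℕ) = p then 0 else x q * nzz ((q : ℕ) : ZMod p)) +
        x p * (nzz (((∏ q ∈ S.erase p, q : ℕ) : ℤ) : ZMod p) + κ p) = 0 := by
  have hS1 : ∀ q ∈ S, q.Prime := fun q hq => (hS q hq).1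
  have hP := hPf hS
  have hrow : ∀ (p : ℕ) [Fact p.Prime] (hpP : p ∈ Pf S), QSolv ℚ_[p] (a * DD S) (b * DD S ^ 2)
      (V (Pf S) ε δ x) ↔ (if ε then s4 p else 0) +
        (∑ q : Pf S, if (q : ℕ) = p then 0 else x q * nzz ((q : ℕ) : ZMod p)) +
        x ⟨p, hpP⟩ * (nzz (((∏ q ∈ S.erase p, q : ℕ) : ℤ) : ZMod p) + κ p) = 0 := by
    intro p hp hpP
    obtain ⟨t, ht⟩ := two_sq (p := p) (hP p hpP).2
    have hpS := (Finset.mem_filter.1 hpP).1
    have hb0 : (b : ZMod p) ≠ 0 := by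
      intro h0
      rw [ZMod.intCast_zmod_eq_zero_iff_dvd] at h0
      exact (hS p hpS).2 (hb2 p hp.out h0)
    have hβ : (b : ZMod p) = (t * c2) ^ 2 := by
      rw [hb]
      push_cast
      linear_combination ((c2 : ZMod p) ^ 2) * ht
    exact loc_row hP S hpP hpS hS1 hβ (by
      intro h0
      rw [h0] at hβ
      exact hb0 (by rw [hβ]; ring)) (hκ p hpP) ε δ x
  constructor
  · intro h p
    have hp : Fact (p : ℕ).Prime := ⟨(hP p p.2).1⟩
    exact (hrow p p.2).1 (h p (by have := (hP p p.2).2; omega))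
  · intro h l hl hl2
    have hlP := Nat.prime_iff_prime_int.1 hl.out
    by_cases h1 : l ∈ Pf S
    · exact (hrow l h1).2 (h ⟨l, h1⟩)
    · have h2 : ¬ (l : ℤ) ∣ V (Pf S) ε δ x := by
        rw [dvd_V hP hl.out, mem_U]
        rintro (⟨h3, -⟩ | ⟨h3, -⟩)
        · exact hl2 h3
        · exact h1 h3
      by_cases h3 : l ∈ S
      · exact inert_ndvd (c := c2 * DD S) hl2 (two_nsq hS h3 h1) (by rw [hb]; ring) h2
      · have h4 : ¬ (l : ℤ) ∣ DD S := fun h5 => h3 ((dvd_prod_iff hS1 hl.out).1 h5)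
        have h5 : ¬ (l : ℤ) ∣ DD S ^ 2 := fun h6 => h4 (hlP.dvd_of_dvd_pow h6)
        refine good hl2 ?_ ?_ h2
        · intro h6
          rcases hlP.dvd_or_dvd h6 with h7 | h7
          · exact hl2 (hb2 l hl.out h7)
          · exact h5 h7
        · intro h6
          have h7 : (a * DD S) ^ 2 - 4 * (b * DD S ^ 2) = (a ^ 2 - 4 * b) * DD S ^ 2 := by ring
          rw [h7] at h6
          rcases hlP.dvd_or_dvd h6 with h8 | h8
          · exact hl2 (hc l hl.out h8)
          · exact h5 h8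

include hS in
/-- the residue modulo `8` -/
theorem V_mod (x : Pf S → ZMod 2) :
    ((∏ q ∈ U (Pf S) false x, q) % 8 = 1 ∧ ∑ q : Pf S, s4 q * x q = 0) ∨
      ((∏ q ∈ U (Pf S) false x, q) % 8 = 7 ∧ ∑ q : Pf S, s4 q * x q = 1) := by
  have h1 := prod_mod8 (U (Pf S) false x) (by
    intro q hq
    rcases mem_U.1 hq with ⟨-, h⟩ | ⟨h, -⟩
    · exact absurd h (by decide)
    · exact (hPf hS q h).2)
  have h2 : ∑ q ∈ U (Pf S) false x, s4 q = ∑ q : Pf S, s4 q * x q := by
    classical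
    have h3 : U (Pf S) false x = Finset.image (fun q : Pf S => (q : ℕ))
        (Finset.univ.filter (fun q : Pf S => x q = 1)) := by
      ext l
      rw [mem_U, Finset.mem_image]
      constructor
      · rintro (⟨-, h⟩ | ⟨h, h'⟩)
        · exact absurd h (by decide)
        · exact ⟨⟨l, h⟩, Finset.mem_filter.2 ⟨Finset.mem_univ _, h'⟩, rfl⟩
      · rintro ⟨r, hr, rfl⟩
        exact Or.inr ⟨r.2, (Finset.mem_filter.1 hr).2⟩
    rw [h3, Finset.sum_image (fun (a : Pf S) _ (b : Pf S) _ h => Subtype.ext h), Finset.sum_filter]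
    refine Finset.sum_congr rfl fun q _ => ?_
    have h4 : ∀ a : ZMod 2, a = 0 ∨ a = 1 := by decide
    rcases h4 (x q) with h6 | h6
    · rw [h6, mul_zero, if_neg zero_ne_one]
    · rw [h6, mul_one, if_pos rfl]
  rwa [h2] at h1

include hS in
theorem V_two (ε : Bool) (x : Pf S → ZMod 2) : V (Pf S) ε true x = 2 * V (Pf S) ε false x := by
  have h1 : U (Pf S) true x = insert 2 (U (Pf S) false x) := by
    classical
    ext l
    rw [Finset.mem_insert, mem_U, mem_U]
    simp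
  have h2 : 2 ∉ U (Pf S) false x := by
    rw [mem_U]
    rintro (⟨-, h⟩ | ⟨h, -⟩)
    · exact absurd h (by decide)
    · have := (hPf hS 2 h).2
      omega
  unfold V
  rw [h1, Finset.prod_insert h2]
  push_cast
  ring

theorem DD_pos (hS : ∀ q ∈ S, q.Prime ∧ q ≠ 2) : 0 < DD S := by
  unfold DD
  have : 0 < ∏ q ∈ S, q := Finset.prod_pos fun q hq => (hS q hq).1.pos
  exact_mod_cast this

/-- the matrix -/
noncomputable def Bm (S : Finset ℕ) (κ : ℕ → ZMod 2) : Matrix (Pf S) (Option (Pf S)) (ZMod 2) :=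
  Matrix.of fun p o => match o with
    | none => s4 p
    | some q => if (q : ℕ) = p then nzz (((∏ r ∈ S.erase p, r : ℕ) : ℤ) : ZMod p) + κ p
        else nzz ((q : ℕ) : ZMod p)

include hS in
theorem sel1 (hodd : DD S % 2 = 1) (κ : ℕ → ZMod 2)
    (hκ : ∀ p ∈ Pf S, ∀ [Fact p.Prime], ∀ D1 d1 : ℤ, Squarefree (p * d1) → Squarefree (p * D1) →
      (QSolv ℚ_[p] (4 * (p * D1)) (2 * (p * D1) ^ 2) (p * d1) ↔
        nzz (d1 : ZMod p) + nzz (D1 : ZMod p) + κ p = 0)) :
    (SelQ (4 * DD S) (2 * DD S ^ 2)).ncard =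
      2 * Nat.card {y : Option (Pf S) → ZMod 2 // (Bm S κ).mulVec y = 0} := by
  classical
  have hP := hPf hS
  have h4 : ∀ a : ZMod 2, a = 0 ∨ a = 1 := by decide
  have hb2 : ∀ l : ℕ, l.Prime → (l : ℤ) ∣ 2 → l = 2 := by
    intro l hl h
    exact (Nat.prime_dvd_prime_iff_eq hl Nat.prime_two).1 (by exact_mod_cast h)
  have hc8 : ∀ l : ℕ, l.Prime → (l : ℤ) ∣ 4 ^ 2 - 4 * 2 → l = 2 := by
    intro l hl h
    have h1 : (l : ℤ) ∣ 2 ^ 3 := by norm_num at h ⊢; exact h
    exact hb2 l hl ((Nat.prime_iff_prime_int.1 hl).dvd_of_dvd_pow h1)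
  set Φ : Bool × (Option (Pf S) → ZMod 2) → ℤ := fun t =>
    V (Pf S) (decide (t.2 none = 1)) t.1 (fun q => t.2 (some q)) with hΦ
  have hinj : Function.Injective Φ := by
    rintro ⟨δ, y⟩ ⟨δ', y'⟩ h
    obtain ⟨h1, h2, h3⟩ := V_inj hP h
    simp only at h1 h2 h3
    refine Prod.ext h2 ?_
    funext o
    cases o with
    | none =>
      have h5 := decide_eq_decide.1 h1
      have h6 : ∀ a b : ZMod 2, (a = 1 ↔ b = 1) → a = b := by decide
      exact h6 _ _ h5
    | some q => exact congrFun h3 q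
  have hrow : ∀ (y : Option (Pf S) → ZMod 2) (p : Pf S), (Bm S κ).mulVec y p =
      (if decide (y none = 1) then s4 p else 0) +
        (∑ q : Pf S, if (q : ℕ) = p then 0 else y (some q) * nzz ((q : ℕ) : ZMod p)) +
        y (some p) * (nzz (((∏ q ∈ S.erase p, q : ℕ) : ℤ) : ZMod p) + κ p) := by
    intro y p
    have h1 : (Bm S κ).mulVec y p = s4 p * y none + ∑ q : Pf S,
        (if (q : ℕ) = p then nzz (((∏ r ∈ S.erase p, r : ℕ) : ℤ) : ZMod p) + κ p
          else nzz ((q : ℕ) : ZMod p)) * y (some q) := by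
      rw [Matrix.mulVec, dotProduct, Fintype.sum_option]
      rfl
    rw [h1, add_assoc]
    congr 1
    · rcases h4 (y none) with h5 | h5
      · rw [h5]; simp
      · rw [h5]; simp
    · have h2 : y (some p) * (nzz (((∏ q ∈ S.erase p, q : ℕ) : ℤ) : ZMod p) + κ p) =
          ∑ q : Pf S, if q = p then y (some q) *
            (nzz (((∏ q ∈ S.erase p, q : ℕ) : ℤ) : ZMod p) + κ p) else 0 := by
        rw [Finset.sum_ite_eq' Finset.univ p, if_pos (Finset.mem_univ p)]
      rw [h2, ← Finset.sum_add_distrib]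
      refine Finset.sum_congr rfl fun q _ => ?_
      by_cases h5 : q = p
      · rw [h5]
        simp only [if_true]
        ring
      · have h6 : ¬ (q : ℕ) = p := fun h7 => h5 (Subtype.ext h7)
        rw [if_neg h6, if_neg h6, if_neg h5]
        ring
  have himg : SelQ (4 * DD S) (2 * DD S ^ 2) =
      Φ '' ((Set.univ : Set Bool) ×ˢ {y | (Bm S κ).mulVec y = 0}) := by
    ext d
    rw [Set.mem_image]
    constructor
    · rintro ⟨hd, hr, hq⟩
      obtain ⟨ε, δ, x, rfl⟩ := exists_V hd (supp hS (a := 4) (b := 2) (c1 := 2) hb2 (by norm_num)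
        hb2 hd hq)
      refine ⟨(δ, fun o => match o with | none => if ε then 1 else 0 | some q => x q), ?_, ?_⟩
      · refine ⟨Set.mem_univ _, ?_⟩
        rw [Set.mem_setOf_eq]
        funext p
        rw [hrow]
        have h5 := (mem_iff hS (a := 4) (b := 2) (c1 := 2) (c2 := 1) (by norm_num) hb2 hc8 κ hκ
          ε δ x).1 (fun l _ _ => hq l) p
        cases ε <;> simpa using h5
      · simp only [hΦ]
        cases ε <;> simp
    · rintro ⟨⟨δ, y⟩, ⟨-, hy⟩, rfl⟩
      rw [Set.mem_setOf_eq] at hy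
      have hsq := V_sqf hP (decide (y none = 1)) δ (fun q => y (some q))
      refine ⟨hsq, real1 (DD_pos hS) hsq.ne_zero, fun l hl => ?_⟩
      by_cases hl2 : l = 2
      · subst hl2
        refine two1 hodd ?_
        have h5 := V_mod hS (fun q => y (some q))
        have h6 : V (Pf S) (decide (y none = 1)) false (fun q => y (some q)) % 8 = 1 ∨
            V (Pf S) (decide (y none = 1)) false (fun q => y (some q)) % 8 = 7 := by
          unfold V
          have h7 : ((∏ q ∈ U (Pf S) false (fun q => y (some q)), q : ℕ) : ℤ) % 8 = 1 ∨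
              ((∏ q ∈ U (Pf S) false (fun q => y (some q)), q : ℕ) : ℤ) % 8 = 7 := by
            rcases h5 with ⟨h5, -⟩ | ⟨h5, -⟩
            · left; exact_mod_cast h5
            · right; exact_mod_cast h5
          split_ifs
          · omega
          · omega
        cases δ
        · rcases h6 with h6 | h6
          · exact Or.inl h6
          · exact Or.inr (Or.inl h6)
        · exact Or.inr (Or.inr ⟨_, V_two hS _ _, h6⟩)
      · exact (mem_iff hS (a := 4) (b := 2) (c1 := 2) (c2 := 1) (by norm_num) hb2 hc8 κ hκ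
          _ δ _).2 (fun p => by rw [← hrow]; exact congrFun hy p) l hl2
  rw [himg, Set.ncard_image_of_injective _ hinj, Set.ncard_prod, Set.ncard_univ,
    Nat.card_eq_fintype_card, Fintype.card_bool]
  rfl

include hS in
theorem sel2 (hodd : DD S % 2 = 1) (κ : ℕ → ZMod 2)
    (hκ : ∀ p ∈ Pf S, ∀ [Fact p.Prime], ∀ D1 d1 : ℤ, Squarefree (p * d1) → Squarefree (p * D1) →
      (QSolv ℚ_[p] (-8 * (p * D1)) (8 * (p * D1) ^ 2) (p * d1) ↔
        nzz (d1 : ZMod p) + nzz (D1 : ZMod p) + (κ p + s4 p) = 0)) :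
    (SelQ (-8 * DD S) (8 * DD S ^ 2)).ncard =
      2 * Nat.card {x : Pf S → ZMod 2 // (Bm S κ).transpose.mulVec x = 0} := by
  classical
  have hP := hPf hS
  have h4 : ∀ a : ZMod 2, a = 0 ∨ a = 1 := by decide
  have hb1 : ∀ l : ℕ, l.Prime → (l : ℤ) ∣ 2 → l = 2 := by
    intro l hl h
    exact (Nat.prime_dvd_prime_iff_eq hl Nat.prime_two).1 (by exact_mod_cast h)
  have hb2 : ∀ l : ℕ, l.Prime → (l : ℤ) ∣ 8 → l = 2 := by
    intro l hl h
    have h1 : (l : ℤ) ∣ 2 ^ 3 := by norm_num; exact h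
    exact hb1 l hl ((Nat.prime_iff_prime_int.1 hl).dvd_of_dvd_pow h1)
  have hb4 : ∀ l : ℕ, l.Prime → (l : ℤ) ∣ 4 → l = 2 := by
    intro l hl h
    have h1 : (l : ℤ) ∣ 2 ^ 2 := by norm_num; exact h
    exact hb1 l hl ((Nat.prime_iff_prime_int.1 hl).dvd_of_dvd_pow h1)
  have hc8 : ∀ l : ℕ, l.Prime → (l : ℤ) ∣ (-8) ^ 2 - 4 * 8 → l = 2 := by
    intro l hl h
    have h1 : (l : ℤ) ∣ 2 ^ 5 := by norm_num at h ⊢; exact h
    exact hb1 l hl ((Nat.prime_iff_prime_int.1 hl).dvd_of_dvd_pow h1)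
  set Φ : Bool × (Pf S → ZMod 2) → ℤ := fun t => V (Pf S) false t.1 t.2 with hΦ
  have hinj : Function.Injective Φ := by
    rintro ⟨δ, y⟩ ⟨δ', y'⟩ h
    obtain ⟨h1, h2, h3⟩ := V_inj hP h
    exact Prod.ext h2 h3
  have hpos : ∀ (δ : Bool) (x : Pf S → ZMod 2), (0 : ℤ) < ((∏ p ∈ U (Pf S) δ x, p : ℕ) : ℤ) := by
    intro δ x
    have : 0 < ∏ p ∈ U (Pf S) δ x, p := Finset.prod_pos fun p hp => (U_prime hP hp).pos
    exact_mod_cast this
  -- the rows of the transpose
  have hrow : ∀ (x : Pf S → ZMod 2) (q : Pf S), ∑ p : Pf S, s4 p * x p = 0 →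
      (Bm S κ).transpose.mulVec x (some q) =
      (if false then s4 q else 0) +
        (∑ p : Pf S, if (p : ℕ) = q then 0 else x p * nzz ((p : ℕ) : ZMod q)) +
        x q * (nzz (((∏ r ∈ S.erase q, r : ℕ) : ℤ) : ZMod q) + (κ q + s4 q)) := by
    intro x q hx
    have h1 : (Bm S κ).transpose.mulVec x (some q) = ∑ p : Pf S,
        (if (q : ℕ) = p then nzz (((∏ r ∈ S.erase p, r : ℕ) : ℤ) : ZMod p) + κ p
          else nzz ((q : ℕ) : ZMod p)) * x p := by
      rw [Matrix.mulVec, dotProduct]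
      rfl
    have h2 : x q * (nzz (((∏ r ∈ S.erase q, r : ℕ) : ℤ) : ZMod q) + (κ q + s4 q)) =
          ∑ p : Pf S, if p = q then x p *
            (nzz (((∏ r ∈ S.erase p, r : ℕ) : ℤ) : ZMod p) + (κ p + s4 p)) else 0 := by
      rw [Finset.sum_ite_eq' Finset.univ q, if_pos (Finset.mem_univ q)]
    have h3 : ∀ T : ZMod 2, T = T + ∑ p : Pf S, s4 q * (s4 p * x p) := by
      intro T
      rw [← Finset.mul_sum, hx, mul_zero, add_zero]
    rw [h1, h2, if_neg (by decide), zero_add]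
    refine (h3 _).trans ?_
    rw [← Finset.sum_add_distrib, ← Finset.sum_add_distrib]
    refine Finset.sum_congr rfl fun p _ => ?_
    by_cases h5 : p = q
    · rw [h5]
      simp only [if_true]
      generalize nzz (((∏ r ∈ S.erase (q : ℕ), r : ℕ) : ℤ) : ZMod (q : ℕ)) = A
      generalize κ q = B
      generalize s4 q = C
      generalize x q = E
      revert A B C E
      decide
    · have h6 : ¬ (p : ℕ) = q := fun h7 => h5 (Subtype.ext h7)
      have h7 : ¬ (q : ℕ) = p := fun h8 => h6 h8.symm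
      rw [if_neg h6, if_neg h7, if_neg h5]
      have hp : Fact (p : ℕ).Prime := ⟨(hP p p.2).1⟩
      have hq : Fact (q : ℕ).Prime := ⟨(hP q q.2).1⟩
      have h8 := nzz_recip (p := p) (q := q) (by have := (hP p p.2).2; omega)
        (by have := (hP q q.2).2; omega) h6
      revert h8
      generalize nzz (((q : ℕ)) : ZMod (p : ℕ)) = A
      generalize nzz (((p : ℕ)) : ZMod (q : ℕ)) = B
      generalize s4 q = C
      generalize s4 p = F
      generalize x p = E
      revert A B C E F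
      decide
  have hnone : ∀ x : Pf S → ZMod 2, (Bm S κ).transpose.mulVec x none = ∑ p : Pf S, s4 p * x p := by
    intro x
    rw [Matrix.mulVec, dotProduct]
    rfl
  have himg : SelQ (-8 * DD S) (8 * DD S ^ 2) =
      Φ '' ((Set.univ : Set Bool) ×ˢ {x | (Bm S κ).transpose.mulVec x = 0}) := by
    ext d
    rw [Set.mem_image]
    constructor
    · rintro ⟨hd, hr, hq⟩
      obtain ⟨ε, δ, x, rfl⟩ := exists_V hd (supp hS (a := -8) (b := 8) (c1 := 4) hb2 (by norm_num)
        hb4 hd hq)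
      have hpos' := (real2 (DD_pos hS) hd.ne_zero).1 hr
      have hε : ε = false := by
        cases ε
        · rfl
        · exfalso
          unfold V at hpos'
          have := hpos δ x
          simp only [if_true] at hpos'
          linarith
      subst hε
      have hx : ∑ p : Pf S, s4 p * x p = 0 := by
        rcases V_mod hS x with ⟨-, h5⟩ | ⟨h5, -⟩
        · exact h5
        · exfalso
          have h6 : V (Pf S) false false x % 8 = 7 := by
            unfold V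
            rw [if_neg (by decide), one_mul]
            exact_mod_cast h5
          have hF2 : Fact (Nat.Prime 2) := ⟨Nat.prime_two⟩
          refine two2_neg hodd hd ?_ (hq 2)
          cases δ
          · exact Or.inl h6
          · exact Or.inr ⟨_, V_two hS _ _, h6⟩
      refine ⟨(δ, x), ⟨Set.mem_univ _, ?_⟩, rfl⟩
      rw [Set.mem_setOf_eq]
      funext o
      cases o with
      | none => rw [hnone]; exact hx
      | some q =>
        rw [hrow x q hx]
        exact (mem_iff hS (a := -8) (b := 8) (c1 := 4) (c2 := 2) (by norm_num) hb2 hc8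
          (fun p => κ p + s4 p) hκ false δ x).1 (fun l _ _ => hq l) q
    · rintro ⟨⟨δ, x⟩, ⟨-, hy⟩, rfl⟩
      rw [Set.mem_setOf_eq] at hy
      have hx : ∑ p : Pf S, s4 p * x p = 0 := by rw [← hnone]; exact congrFun hy none
      have hsq := V_sqf hP false δ x
      refine ⟨hsq, (real2 (DD_pos hS) hsq.ne_zero).2 ?_, fun l hl => ?_⟩
      · simp only [V]
        rw [if_neg (by decide), one_mul]
        exact hpos δ x
      by_cases hl2 : l = 2
      · subst hl2
        refine two2_pos ?_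
        rcases V_mod hS x with ⟨h5, -⟩ | ⟨-, h5⟩
        · have h6 : V (Pf S) false false x % 8 = 1 := by
            unfold V
            rw [if_neg (by decide), one_mul]
            exact_mod_cast h5
          cases δ
          · exact Or.inl h6
          · exact Or.inr ⟨_, V_two hS _ _, h6⟩
        · exfalso
          rw [hx] at h5
          exact zero_ne_one h5
      · exact (mem_iff hS (a := -8) (b := 8) (c1 := 4) (c2 := 2) (by norm_num) hb2 hc8
          (fun p => κ p + s4 p) hκ false δ x).2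
          (fun p => by rw [← hrow x p hx]; exact congrFun hy (some p)) l hl2
  rw [himg, Set.ncard_image_of_injective _ hinj, Set.ncard_prod, Set.ncard_univ,
    Nat.card_eq_fintype_card, Fintype.card_bool]
  rfl

end

/-- the two Selmer groups -/
theorem main (D : ℕ) (hD : Squarefree D) (h2 : D % 2 = 1) :
    (SelQ (4 * D) (2 * D ^ 2)).ncard = 2 * (SelQ (-8 * D) (8 * D ^ 2)).ncard := by
  classical
  have hS : ∀ q ∈ D.primeFactors, q.Prime ∧ q ≠ 2 := by
    intro q hq
    refine ⟨Nat.prime_of_mem_primeFactors hq, ?_⟩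
    rintro rfl
    have := Nat.dvd_of_mem_primeFactors hq
    omega
  have hDD : DD D.primeFactors = D := by
    unfold DD
    rw [Nat.prod_primeFactors_of_squarefree hD]
  have hex : ∀ p : ℕ, ∃ κ : ZMod 2, p ∈ Pf D.primeFactors → ∀ [Fact p.Prime],
      (∀ D1 d1 : ℤ, Squarefree (p * d1) → Squarefree (p * D1) →
      (QSolv ℚ_[p] (4 * (p * D1)) (2 * (p * D1) ^ 2) (p * d1) ↔
        nzz (d1 : ZMod p) + nzz (D1 : ZMod p) + κ = 0)) ∧
      (∀ D1 d1 : ℤ, Squarefree (p * d1) → Squarefree (p * D1) →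
      (QSolv ℚ_[p] (-8 * (p * D1)) (8 * (p * D1) ^ 2) (p * d1) ↔
        nzz (d1 : ZMod p) + nzz (D1 : ZMod p) + (κ + s4 p) = 0)) := by
    intro p
    by_cases hp : p ∈ Pf D.primeFactors
    · have hF : Fact p.Prime := ⟨(hPf hS p hp).1⟩
      obtain ⟨κ, h1, h3⟩ := exists_kappa (p := p) (hPf hS p hp).2
      rw [nzz_neg_one] at h3
      exact ⟨κ, fun _ => ⟨h1, h3⟩⟩
    · exact ⟨0, fun h => absurd h hp⟩
  choose κ hκ using hex
  have hodd : DD D.primeFactors % 2 = 1 := by rw [hDD]; omega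
  have a1 := sel1 hS hodd κ (fun p hp _ => (hκ p hp).1)
  have a2 := sel2 hS hodd κ (fun p hp _ => (hκ p hp).2)
  rw [hDD] at a1 a2
  rw [a1, a2, card_ker]

/-- in terms of the definitions of project GE -/
theorem main_sel (D : ℕ) (hD : Squarefree D) (h2 : D % 2 = 1) :
    Pool.Agent.U115.GE.sel (4 * D) (2 * D ^ 2) = 2 * Pool.Agent.U115.GE.sel (-8 * D) (8 * D ^ 2) :=
  main D hD h2

end Pool.Agent.U358.GZ
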