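import Pool.Agent.U79.GZ.Stm4
import Pool.Agent.U358.GZ.Main

/-! Project GZ, package DSCN (wrapper around `Pool.Agent.U358.GZ.main_sel`). -/

set_option autoImplicit false

namespace Pool.Agent.U358.GZ

theorem t_DSCN : Pool.Agent.U79.GZ.S_DSCN := fun _ D hD h2 => main_sel D hD h2

end Pool.Agent.U358.GZ
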