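import Mathlib

/-! Project GZ, package DSCN: the kernels of a matrix with `n` rows and `n + 1` columns and of its transpose. -/

set_option autoImplicit false

namespace Pool.Agent.U358.GZ

theorem card_ker {ι : Type} [Fintype ι] [DecidableEq ι] (B : Matrix ι (Option ι) (ZMod 2)) :
    Nat.card {y : Option ι → ZMod 2 // B.mulVec y = 0} =
      2 * Nat.card {x : ι → ZMod 2 // B.transpose.mulVec x = 0} := by
  have h1 : ∀ {κ μ : Type} [Fintype κ] [Fintype μ] [DecidableEq κ] [DecidableEq μ]
      (C : Matrix κ μ (ZMod 2)), Nat.card {y : μ → ZMod 2 // C.mulVec y = 0} =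
      2 ^ (Fintype.card μ - C.rank) := by
    intro κ μ _ _ _ _ C
    have h2 : Nat.card {y : μ → ZMod 2 // C.mulVec y = 0} =
        Nat.card (LinearMap.ker C.mulVecLin) := by
      apply Nat.card_congr
      refine Equiv.subtypeEquivRight fun y => ?_
      rw [LinearMap.mem_ker, Matrix.mulVecLin_apply]
    rw [h2]
    have h3 := Module.natCard_eq_pow_finrank (K := ZMod 2) (V := LinearMap.ker C.mulVecLin)
    rw [h3, Nat.card_eq_fintype_card, ZMod.card]
    congr 1
    have h4 := LinearMap.finrank_range_add_finrank_ker C.mulVecLin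
    rw [Module.finrank_fintype_fun_eq_card] at h4
    unfold Matrix.rank
    omega
  rw [h1, h1, Matrix.rank_transpose, Fintype.card_option]
  have h5 : B.rank ≤ Fintype.card ι := B.rank_le_card_height
  rw [← pow_succ']
  congr 1
  omega

end Pool.Agent.U358.GZ
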