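import Pool.Agent.U358.GZ.Kap
import Pool.Agent.U358.GZ.Lin

/-! Project GZ, package DSCN: the Selmer groups as kernels. -/

set_option autoImplicit false
set_option linter.unusedVariables false

namespace Pool.Agent.U358.GZ

open Finset

/-- the Selmer group -/
def SelQ (a b : ℤ) : Set ℤ :=
  {d | Squarefree d ∧ QSolv ℝ a b d ∧ ∀ (p : ℕ) [Fact p.Prime], QSolv ℚ_[p] a b d}

/-- the symbol of `-1` -/
def s4 (p : ℕ) : ZMod 2 := if p % 4 = 3 then 1 else 0

theorem nzz_neg_one {p : ℕ} [hp : Fact p.Prime] : nzz (-1 : ZMod p) = s4 p := by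
  unfold nzz s4
  have h := ZMod.exists_sq_eq_neg_one_iff (p := p)
  by_cases h1 : p % 4 = 3
  · rw [if_pos h1, if_neg]
    rw [h]
    exact fun h2 => h2 h1
  · rw [if_neg h1, if_pos]
    rw [h]
    exact h1

theorem nzz_recip {p q : ℕ} [hp : Fact p.Prime] [hq : Fact q.Prime] (hp2 : p ≠ 2) (hq2 : q ≠ 2)
    (hpq : p ≠ q) : nzz (q : ZMod p) + nzz (p : ZMod q) = s4 p * s4 q := by
  have hp1 : p % 2 = 1 := (hp.out.eq_two_or_odd).resolve_left hp2
  have hq1 : q % 2 = 1 := (hq.out.eq_two_or_odd).resolve_left hq2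
  unfold nzz s4
  by_cases h1 : p % 4 = 3
  · by_cases h2 : q % 4 = 3
    · have h := ZMod.exists_sq_eq_prime_iff_of_mod_four_eq_three h1 h2 hpq
      rw [if_pos h1, if_pos h2]
      by_cases h3 : IsSquare (q : ZMod p)
      · rw [if_pos h3, if_neg (h.1 h3)]; decide
      · rw [if_neg h3, if_pos (by by_contra h4; exact h3 (h.2 h4))]; decide
    · have h := ZMod.exists_sq_eq_prime_iff_of_mod_four_eq_one (p := q) (q := p) (by omega) hp2
      rw [if_pos h1, if_neg h2]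
      by_cases h3 : IsSquare (q : ZMod p)
      · rw [if_pos h3, if_pos (h.2 h3)]; decide
      · rw [if_neg h3, if_neg (fun h4 => h3 (h.1 h4))]; decide
  · have h := ZMod.exists_sq_eq_prime_iff_of_mod_four_eq_one (p := p) (q := q) (by omega) hq2
    rw [if_neg h1]
    by_cases h3 : IsSquare (q : ZMod p)
    · rw [if_pos h3, if_pos (h.1 h3)]; simp
    · rw [if_neg h3, if_neg (fun h4 => h3 (h.2 h4)), zero_mul]; decide

theorem prod_mod8 (A : Finset ℕ) (hA : ∀ q ∈ A, q % 8 = 1 ∨ q % 8 = 7) :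
    ((∏ q ∈ A, q) % 8 = 1 ∧ ∑ q ∈ A, s4 q = 0) ∨ ((∏ q ∈ A, q) % 8 = 7 ∧ ∑ q ∈ A, s4 q = 1) := by
  classical
  induction A using Finset.induction_on with
  | empty => left; simp
  | insert q A hq ih =>
    have h1 := ih fun r hr => hA r (Finset.mem_insert_of_mem hr)
    rw [Finset.prod_insert hq, Finset.sum_insert hq]
    have h2 := hA q (Finset.mem_insert_self _ _)
    have h3 : (q * ∏ r ∈ A, r) % 8 = ((q % 8) * ((∏ r ∈ A, r) % 8)) % 8 := Nat.mul_mod _ _ _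
    rcases h2 with h2 | h2
    · have h4 : s4 q = 0 := by unfold s4; rw [if_neg]; omega
      rw [h3, h2, h4, zero_add]
      rcases h1 with ⟨a, b⟩ | ⟨a, b⟩
      · left; rw [a, b]; decide
      · right; rw [a, b]; decide
    · have h4 : s4 q = 1 := by unfold s4; rw [if_pos]; omega
      rw [h3, h2, h4]
      rcases h1 with ⟨a, b⟩ | ⟨a, b⟩
      · right; rw [a, b]; decide
      · left; rw [a, b]; decide

section

variable {P : Finset ℕ} (hP : ∀ p ∈ P, p.Prime ∧ (p % 8 = 1 ∨ p % 8 = 7))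

theorem sumU {δ : Bool} {x : P → ZMod 2} (p : ℕ) (h2 : nzz (2 : ZMod p) = 0) :
    ∑ q ∈ (U P δ x).erase p, nzz (q : ZMod p) =
      ∑ q : P, if (q : ℕ) = p then 0 else x q * nzz ((q : ℕ) : ZMod p) := by
  classical
  set T : Finset ℕ := Finset.image (fun q : P => (q : ℕ))
    (Finset.univ.filter (fun q : P => x q = 1 ∧ (q : ℕ) ≠ p)) with hT
  have h3 : ∑ q ∈ (U P δ x).erase p, nzz (q : ZMod p) = ∑ q ∈ T, nzz (q : ZMod p) := by
    symm
    apply Finset.sum_subset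
    · intro q hq
      rw [hT, Finset.mem_image] at hq
      obtain ⟨r, hr, rfl⟩ := hq
      rw [Finset.mem_filter] at hr
      rw [Finset.mem_erase, mem_U]
      exact ⟨hr.2.2, Or.inr ⟨r.2, hr.2.1⟩⟩
    · intro q hq hqT
      rw [Finset.mem_erase, mem_U] at hq
      rcases hq.2 with ⟨h4, -⟩ | ⟨h4, h5⟩
      · rw [h4]
        exact_mod_cast h2
      · exfalso
        apply hqT
        rw [hT, Finset.mem_image]
        exact ⟨⟨q, h4⟩, Finset.mem_filter.2 ⟨Finset.mem_univ _, h5, hq.1⟩, rfl⟩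
  rw [h3, hT, Finset.sum_image (fun (a : P) _ (b : P) _ h => Subtype.ext h), Finset.sum_filter]
  refine Finset.sum_congr rfl fun q _ => ?_
  have h4 : ∀ a : ZMod 2, a = 0 ∨ a = 1 := by decide
  by_cases h5 : (q : ℕ) = p
  · rw [if_pos h5, if_neg (fun h => h.2 h5)]
  · rw [if_neg h5]
    rcases h4 (x q) with h6 | h6
    · rw [h6, zero_mul, if_neg (fun h => zero_ne_one h.1)]
    · rw [h6, one_mul, if_pos ⟨rfl, h5⟩]

theorem nzz_sgn {p : ℕ} [hp : Fact p.Prime] (ε : Bool) (A : Finset ℕ) (hA : ∀ q ∈ A, q.Prime)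
    (hpA : p ∉ A) : nzz ((((if ε then -1 else 1) * ((∏ q ∈ A, q : ℕ) : ℤ) : ℤ)) : ZMod p) =
      (if ε then s4 p else 0) + ∑ q ∈ A, nzz (q : ZMod p) := by
  have h1 : ∀ q ∈ A, (q : ZMod p) ≠ 0 := by
    intro q hq h0
    rw [ZMod.natCast_eq_zero_iff, Nat.prime_dvd_prime_iff_eq hp.out (hA q hq)] at h0
    exact hpA (h0 ▸ hq)
  rw [← nzz_prod A h1]
  cases ε
  · simp
  · have h2 : (((∏ q ∈ A, q : ℕ) : ℤ) : ZMod p) ≠ 0 := by
      push_cast
      rw [Finset.prod_ne_zero_iff]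
      exact h1
    rw [if_pos rfl, if_pos rfl, ← nzz_neg_one, ← nzz_mul (neg_ne_zero.2 one_ne_zero) h2]
    congr 1
    push_cast
    ring

variable (S : Finset ℕ)

include hP in
/-- the condition at a split prime -/
theorem loc_row {p : ℕ} [hp : Fact p.Prime] (hpP : p ∈ P) (hpS : p ∈ S) (hS : ∀ q ∈ S, q.Prime)
    {a b : ℤ} {β : ZMod p} (hβ : (b : ZMod p) = β ^ 2) (hβ0 : β ≠ 0) {κ : ZMod 2}
    (hκ : ∀ D1 d1 : ℤ, Squarefree (p * d1) → Squarefree (p * D1) →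
      (QSolv ℚ_[p] (a * (p * D1)) (b * (p * D1) ^ 2) (p * d1) ↔
        nzz (d1 : ZMod p) + nzz (D1 : ZMod p) + κ = 0)) (ε δ : Bool) (x : P → ZMod 2) :
    QSolv ℚ_[p] (a * ((∏ q ∈ S, q : ℕ) : ℤ)) (b * ((∏ q ∈ S, q : ℕ) : ℤ) ^ 2) (V P ε δ x) ↔
      (if ε then s4 p else 0) + (∑ q : P, if (q : ℕ) = p then 0 else x q * nzz ((q : ℕ) : ZMod p)) +
        x ⟨p, hpP⟩ * (nzz (((∏ q ∈ S.erase p, q : ℕ) : ℤ) : ZMod p) + κ) = 0 := by
  have hp8 := (hP p hpP).2
  have hp2 : p ≠ 2 := by omega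
  have h2 : nzz (2 : ZMod p) = 0 := (nzz_zero_iff _).2 (two_sq hp8)
  have h4 : ∀ a : ZMod 2, a = 0 ∨ a = 1 := by decide
  rw [← sumU p h2 (δ := δ)]
  rcases h4 (x ⟨p, hpP⟩) with h5 | h5
  · have h6 : p ∉ U P δ x := by
      rw [mem_U]
      rintro (⟨h7, -⟩ | ⟨h7, h8⟩)
      · exact hp2 h7
      · rw [h5] at h8
        exact zero_ne_one h8
    have h7 : ¬ (p : ℤ) ∣ V P ε δ x := by
      rw [dvd_V hP hp.out]
      exact h6
    rw [split_ndvd hp2 (V_sqf hP ε δ x) (sqf_prod hS) ((dvd_prod_iff hS hp.out).2 hpS) h7 hβ hβ0,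
      h5, zero_mul, add_zero, Finset.erase_eq_of_notMem h6, ← nzz_zero_iff]
    unfold V
    rw [nzz_sgn ε _ (fun q hq => U_prime hP hq) h6]
  · have h6 : p ∈ U P δ x := mem_U.2 (Or.inr ⟨hpP, h5⟩)
    set d1 : ℤ := (if ε then -1 else 1) * ((∏ q ∈ (U P δ x).erase p, q : ℕ) : ℤ) with hd1
    have h7 : V P ε δ x = p * d1 := by
      unfold V
      rw [hd1, ← Finset.mul_prod_erase (U P δ x) (fun q => q) h6]
      push_cast
      ring
    have h8 : ((∏ q ∈ S, q : ℕ) : ℤ) = p * ((∏ q ∈ S.erase p, q : ℕ) : ℤ) := by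
      rw [← Finset.mul_prod_erase S (fun q => q) hpS]
      push_cast
      ring
    have h9 := hκ ((∏ q ∈ S.erase p, q : ℕ) : ℤ) d1 (by rw [← h7]; exact V_sqf hP ε δ x)
      (by rw [← h8]; exact sqf_prod hS)
    rw [h7, h8, h9, hd1, nzz_sgn ε _ (fun q hq => U_prime hP (Finset.mem_of_mem_erase hq))
      (Finset.notMem_erase p _), h5, one_mul, add_assoc]

end

end Pool.Agent.U358.GZ
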