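import Pool.Agent.U358.GZ.Loc2

/-! Project GZ, package DSCN: the split primes and the sets of primes. -/

set_option autoImplicit false
set_option linter.unusedVariables false

namespace Pool.Agent.U358.GZ

open Finset

theorem two_sq {p : ℕ} [hp : Fact p.Prime] (h : p % 8 = 1 ∨ p % 8 = 7) : IsSquare (2 : ZMod p) :=
  (ZMod.exists_sq_eq_two_iff (by omega)).2 h

theorem exists_kappa {p : ℕ} [hp : Fact p.Prime] (h : p % 8 = 1 ∨ p % 8 = 7) : ∃ κ : ZMod 2,
    (∀ D1 d1 : ℤ, Squarefree (p * d1) → Squarefree (p * D1) →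
      (QSolv ℚ_[p] (4 * (p * D1)) (2 * (p * D1) ^ 2) (p * d1) ↔
        nzz (d1 : ZMod p) + nzz (D1 : ZMod p) + κ = 0)) ∧
    (∀ D1 d1 : ℤ, Squarefree (p * d1) → Squarefree (p * D1) →
      (QSolv ℚ_[p] (-8 * (p * D1)) (8 * (p * D1) ^ 2) (p * d1) ↔
        nzz (d1 : ZMod p) + nzz (D1 : ZMod p) + (κ + nzz (-1 : ZMod p)) = 0)) := by
  have hp2 : p ≠ 2 := by omega
  have h20 := two_ne (p := p) hp2
  have h2s := two_sq (p := p) h
  obtain ⟨t, ht⟩ := sqZp hp2 (2 : ℤ_[p]) (by rw [map_ofNat]; exact h20) (by rw [map_ofNat]; exact h2s)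
  set τ : ZMod p := PadicInt.toZMod t with hτ
  have hτ2 : τ * τ = 2 := by rw [hτ, ← map_mul, ht, map_ofNat]
  have n2 : nzz (2 : ZMod p) = 0 := (nzz_zero_iff _).2 h2s
  have e1 : (-2 + τ) * (-2 - τ) = 2 := by linear_combination -hτ2
  have a1 : (-2 + τ) ≠ 0 := left_ne_zero_of_mul (by rw [e1]; exact h20)
  have a2 : (-2 - τ) ≠ 0 := right_ne_zero_of_mul (by rw [e1]; exact h20)
  have e2 : nzz (-2 + τ) = nzz (-2 - τ) := by
    have h1 := nzz_mul a1 a2
    rw [e1, n2] at h1
    revert h1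
    generalize nzz (-2 + τ) = x
    generalize nzz (-2 - τ) = y
    revert x y
    decide
  have n1 : (-1 : ZMod p) ≠ 0 := neg_ne_zero.2 one_ne_zero
  have e3 : ∀ z : ZMod p, z ≠ 0 → nzz (-2 * z) = nzz (-1 : ZMod p) + nzz z := by
    intro z hz
    rw [show (-2 : ZMod p) * z = (-1) * (2 * z) by ring, nzz_mul n1 (mul_ne_zero h20 hz),
      nzz_mul h20 hz, n2, zero_add]
  refine ⟨nzz (-2 + τ), ?_, ?_⟩
  · intro D1 d1 hd hD
    have h1 := split_dvd hp2 (a := 4) (b := 2) hd hD (by push_cast; exact h20) (-2 + t)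
      (by push_cast; linear_combination ht) (by
        intro x hx
        push_cast at hx
        rw [map_add, map_neg, map_ofNat]
        have h3 : (x + 2 - τ) * (x + 2 + τ) = 0 := by linear_combination hx - hτ2
        rcases mul_eq_zero.1 h3 with h4 | h4
        · have : x = -2 + τ := by linear_combination h4
          rw [this]
        · have : x = -2 - τ := by linear_combination h4
          rw [this, ← e2])
    rw [h1, map_add, map_neg, map_ofNat]
  · intro D1 d1 hd hD
    have h80 : (8 : ZMod p) ≠ 0 := by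
      rw [show (8 : ZMod p) = 2 ^ 3 by norm_num]
      exact pow_ne_zero 3 h20
    have h1 := split_dvd hp2 (a := -8) (b := 8) hd hD (by push_cast; exact h80) (4 + 2 * t)
      (by push_cast; linear_combination 4 * ht) (by
        intro x hx
        push_cast at hx
        rw [map_add, map_mul, map_ofNat, map_ofNat]
        have h3 : (x - 4 - 2 * τ) * (x - 4 + 2 * τ) = 0 := by linear_combination hx - 4 * hτ2
        rcases mul_eq_zero.1 h3 with h4 | h4
        · have : x = 4 + 2 * τ := by linear_combination h4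
          rw [this]
        · have h5 : x = -2 * (-2 + τ) := by linear_combination h4
          have h6 : 4 + 2 * τ = -2 * (-2 - τ) := by ring
          change nzz x = nzz (4 + 2 * τ)
          rw [h5, h6, e3 _ a1, e3 _ a2, e2])
    rw [h1, map_add, map_mul, map_ofNat, map_ofNat]
    have h6 : 4 + 2 * PadicInt.toZMod t = -2 * (-2 - τ) := by rw [hτ]; ring
    rw [h6, e3 _ a2, ← e2]
    constructor <;> intro h7 <;> linear_combination h7

theorem nzz_prod {p : ℕ} [hp : Fact p.Prime] (A : Finset ℕ) (hA : ∀ q ∈ A, (q : ZMod p) ≠ 0) :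
    nzz (((∏ q ∈ A, q : ℕ) : ℤ) : ZMod p) = ∑ q ∈ A, nzz (q : ZMod p) := by
  classical
  induction A using Finset.induction_on with
  | empty =>
    rw [Finset.prod_empty, Finset.sum_empty, nzz_zero_iff]
    exact ⟨1, by simp⟩
  | insert q A hq ih =>
    have h1 : ∀ r ∈ A, (r : ZMod p) ≠ 0 := fun r hr => hA r (Finset.mem_insert_of_mem hr)
    rw [Finset.prod_insert hq, Finset.sum_insert hq, ← ih h1]
    push_cast
    rw [nzz_mul (hA q (Finset.mem_insert_self _ _))]
    rw [Finset.prod_ne_zero_iff]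
    exact h1

theorem sqf_prod {S : Finset ℕ} (hS : ∀ p ∈ S, p.Prime) : Squarefree (((∏ p ∈ S, p : ℕ) : ℤ)) := by
  rw [Int.squarefree_natCast]
  refine Finset.squarefree_prod_of_pairwise_isCoprime ?_ ?_
  · intro p hp q hq hpq
    rw [Function.onFun, ← Nat.coprime_iff_isRelPrime]
    exact (Nat.coprime_primes (hS p hp) (hS q hq)).2 hpq
  · intro p hp
    exact (hS p hp).prime.squarefree

theorem dvd_prod_iff {A : Finset ℕ} (hA : ∀ p ∈ A, p.Prime) {l : ℕ} (hl : l.Prime) :
    (l : ℤ) ∣ ((∏ p ∈ A, p : ℕ) : ℤ) ↔ l ∈ A := by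
  rw [Int.natCast_dvd_natCast, hl.prime.dvd_finsetProd_iff]
  constructor
  · rintro ⟨r, hr, h⟩
    rw [(Nat.prime_dvd_prime_iff_eq hl (hA r hr)).1 h]
    exact hr
  · intro h
    exact ⟨l, h, dvd_rfl⟩

section

variable (P : Finset ℕ)

/-- the set of the primes -/
noncomputable def U (δ : Bool) (x : P → ZMod 2) : Finset ℕ :=
  open Classical in (if δ then {2} else ∅) ∪ (univ.filter (fun q : P => x q = 1)).image (fun q => (q : ℕ))

/-- the number -/
noncomputable def V (ε δ : Bool) (x : P → ZMod 2) : ℤ :=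
  (if ε then -1 else 1) * ((∏ p ∈ U P δ x, p : ℕ) : ℤ)

variable {P}

theorem mem_U {δ : Bool} {x : P → ZMod 2} {l : ℕ} :
    l ∈ U P δ x ↔ (l = 2 ∧ δ = true) ∨ ∃ h : l ∈ P, x ⟨l, h⟩ = 1 := by
  unfold U
  cases δ <;> simp

variable (hP : ∀ p ∈ P, p.Prime ∧ (p % 8 = 1 ∨ p % 8 = 7))

include hP in
theorem U_prime {δ : Bool} {x : P → ZMod 2} {l : ℕ} (hl : l ∈ U P δ x) : l.Prime := by
  rcases mem_U.1 hl with ⟨h, -⟩ | ⟨h, -⟩
  · rw [h]; exact Nat.prime_two
  · exact (hP l h).1

include hP in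
theorem V_sqf (ε δ : Bool) (x : P → ZMod 2) : Squarefree (V P ε δ x) := by
  unfold V
  have h1 := sqf_prod (fun p hp => U_prime hP (δ := δ) (x := x) hp)
  cases ε
  · simpa using h1
  · intro y hy
    rw [if_pos rfl, neg_one_mul, dvd_neg] at hy
    exact h1 y hy

include hP in
theorem dvd_V {ε δ : Bool} {x : P → ZMod 2} {l : ℕ} (hl : l.Prime) :
    (l : ℤ) ∣ V P ε δ x ↔ l ∈ U P δ x := by
  rw [← dvd_prod_iff (fun p hp => U_prime hP hp) hl]
  unfold V
  cases ε <;> simp

include hP in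
theorem V_inj {ε δ ε' δ' : Bool} {x x' : P → ZMod 2} (h : V P ε δ x = V P ε' δ' x') :
    ε = ε' ∧ δ = δ' ∧ x = x' := by
  have hU : ∀ l : ℕ, l.Prime → (l ∈ U P δ x ↔ l ∈ U P δ' x') := by
    intro l hl
    rw [← dvd_V hP (ε := ε) hl, ← dvd_V hP (ε := ε') hl, h]
  have hpos : ∀ (δ : Bool) (x : P → ZMod 2), (0 : ℤ) < ((∏ p ∈ U P δ x, p : ℕ) : ℤ) := by
    intro δ x
    have : 0 < ∏ p ∈ U P δ x, p := Finset.prod_pos fun p hp => (U_prime hP hp).pos
    exact_mod_cast this
  refine ⟨?_, ?_, ?_⟩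
  · have h1 := hpos δ x
    have h2 := hpos δ' x'
    unfold V at h
    cases ε <;> cases ε' <;> simp only [Bool.false_eq_true, if_false, if_true] at h <;>
      first | rfl | (exfalso; linarith)
  · have h1 := hU 2 Nat.prime_two
    have h2 : ∀ h : 2 ∈ P, False := fun h => by
      have := (hP 2 h).2
      omega
    rw [mem_U, mem_U] at h1
    cases δ <;> cases δ' <;> simp at h1 <;> first | rfl | exact (h2 h1.choose).elim
  · funext q
    have hq := hP q q.2
    have h1 := hU q hq.1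
    rw [mem_U, mem_U] at h1
    have h2 : (q : ℕ) ≠ 2 := by
      intro h3
      rw [h3] at hq
      omega
    simp only [h2, false_and, false_or, Subtype.coe_eta, Finset.coe_mem, exists_prop,
      exists_true_left] at h1
    have h3 : ∀ a b : ZMod 2, (a = 1 ↔ b = 1) → a = b := by decide
    exact h3 _ _ (by simpa using h1)

theorem exists_V {d : ℤ} (hd : Squarefree d)
    (h : ∀ l : ℕ, l.Prime → (l : ℤ) ∣ d → l = 2 ∨ l ∈ P) : ∃ ε δ x, d = V P ε δ x := by
  classical
  have hd' : Squarefree d.natAbs := Int.squarefree_natAbs.2 hd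
  have h1 := Nat.prod_primeFactors_of_squarefree hd'
  refine ⟨decide (d < 0), decide (2 ∈ d.natAbs.primeFactors),
    fun q => if (q : ℕ) ∈ d.natAbs.primeFactors then 1 else 0, ?_⟩
  have h2 : U P (decide (2 ∈ d.natAbs.primeFactors))
      (fun q => if (q : ℕ) ∈ d.natAbs.primeFactors then 1 else 0) = d.natAbs.primeFactors := by
    ext l
    rw [mem_U]
    constructor
    · rintro (⟨h3, h4⟩ | ⟨h3, h4⟩)
      · rw [h3]; exact of_decide_eq_true h4
      · by_contra h5
        rw [if_neg h5] at h4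
        exact zero_ne_one h4
    · intro h3
      rcases h l (Nat.prime_of_mem_primeFactors h3)
        (Int.natCast_dvd.2 (Nat.dvd_of_mem_primeFactors h3)) with h4 | h4
      · left
        exact ⟨h4, by rw [← h4]; exact decide_eq_true h3⟩
      · right
        exact ⟨h4, by rw [if_pos h3]⟩
  unfold V
  rw [h2, h1]
  by_cases h3 : d < 0
  · simp only [h3, decide_true, if_true]
    omega
  · simp only [h3, decide_false, Bool.false_eq_true, if_false]
    omega

end

end Pool.Agent.U358.GZ
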