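import Pool.Agent.U115.TP.Loc
import Pool.Agent.U962.GZ.Core

/-! Project GZ, package DSCN: the local conditions. -/

set_option autoImplicit false
set_option linter.unusedVariables false

namespace Pool.Agent.U358.GZ

open Pool.Agent.U115.TP

/-- the covering `N² = d M⁴ + a M² e² + (b / d) e⁴` has a nontrivial point over `K` -/
def QSolv (K : Type) [Field K] (a b d : ℤ) : Prop :=
  ∃ N M e : K, (M ≠ 0 ∨ e ≠ 0) ∧
    N ^ 2 = (d : K) * M ^ 4 + (a : K) * M ^ 2 * e ^ 2 + (b : K) / (d : K) * e ^ 4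

theorem lsol_of_qq {p : ℕ} [hp : Fact p.Prime] {A B d : ℤ} (hd : Squarefree d)
    (h : QSolv ℚ_[p] A B d) : LSol A B d p := by
  have hu : ¬ (p : ℤ_[p]) ∣ 1 := fun h => (PadicInt.prime_p (p := p)).not_isUnit (isUnit_of_dvd_one h)
  have hd0 : (d : ℚ_[p]) ≠ 0 := by exact_mod_cast hd.ne_zero
  obtain ⟨N, M, e, hne, h⟩ := h
  have h1 : (d : ℚ_[p]) * N ^ 2 = (d : ℚ_[p]) ^ 2 * M ^ 4 + (A : ℚ_[p]) * d * M ^ 2 * e ^ 2 +
      (B : ℚ_[p]) * e ^ 4 := by
    rw [h]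
    field_simp
  by_cases hM : M = 0
  · have he : e ≠ 0 := hne.resolve_left (fun h => h hM)
    refine Pool.Agent.U115.TP.lsol_aux (A := A) (B := B) hd (w := 0) (e := 1) (fun h => hu h.2)
      (N := N / e ^ 2) ?_
    rw [hM] at h1
    push_cast
    field_simp
    linear_combination h1
  · obtain ⟨w, f, hf, hwf, hnd⟩ := Pool.Agent.U115.TP.exists_frac (l := p) (e / M)
    have hf' : (f : ℚ_[p]) ≠ 0 := fun h => hf (Subtype.coe_injective h)
    have he : e = (w : ℚ_[p]) / f * M := by rw [← hwf]; field_simp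
    refine Pool.Agent.U115.TP.lsol_aux (A := A) (B := B) hd (w := f) (e := w)
      (fun h => hnd ⟨h.2, h.1⟩) (N := N * (f : ℚ_[p]) ^ 2 / M ^ 2) ?_
    rw [he] at h1
    have h2 : (d : ℚ_[p]) * N ^ 2 * (f : ℚ_[p]) ^ 4 = ((d : ℚ_[p]) ^ 2 * (f : ℚ_[p]) ^ 4 +
        (A : ℚ_[p]) * d * (f : ℚ_[p]) ^ 2 * (w : ℚ_[p]) ^ 2 + (B : ℚ_[p]) * (w : ℚ_[p]) ^ 4) * M ^ 4 := by
      rw [h1]
      field_simp
    rw [div_pow, mul_pow]
    rw [show (d : ℚ_[p]) * (N ^ 2 * ((f : ℚ_[p]) ^ 2) ^ 2 / (M ^ 2) ^ 2) =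
      ((d : ℚ_[p]) * N ^ 2 * (f : ℚ_[p]) ^ 4) / M ^ 4 by ring, h2]
    field_simp

/-- a square gives a point -/
theorem qq_sq {K : Type} [Field K] {a b d : ℤ} (h : IsSquare (d : K)) : QSolv K a b d := by
  obtain ⟨s, hs⟩ := h
  exact ⟨s, 1, 0, Or.inl one_ne_zero, by rw [hs]; ring⟩

/-- a square times `b` gives a point -/
theorem qq_sqb {K : Type} [Field K] {a b d : ℤ} (hd : (d : K) ≠ 0)
    (h : IsSquare ((b : K) * (d : K))) : QSolv K a b d := by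
  obtain ⟨s, hs⟩ := h
  refine ⟨s / d, 0, 1, Or.inr one_ne_zero, ?_⟩
  rw [div_pow, sq s, ← hs]
  field_simp
  ring

theorem two_ne {p : ℕ} [hp : Fact p.Prime] (hp2 : p ≠ 2) : (2 : ZMod p) ≠ 0 := by
  intro h
  have h1 : ((2 : ℕ) : ZMod p) = 0 := by exact_mod_cast h
  rw [ZMod.natCast_eq_zero_iff, Nat.prime_dvd_prime_iff_eq hp.out Nat.prime_two] at h1
  exact hp2 h1

theorem sqZp {p : ℕ} [hp : Fact p.Prime] (hp2 : p ≠ 2) (u : ℤ_[p]) (h0 : PadicInt.toZMod u ≠ 0)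
    (hs : IsSquare (PadicInt.toZMod u)) : ∃ v : ℤ_[p], v * v = u := by
  obtain ⟨s, hs⟩ := hs
  obtain ⟨a, ha⟩ : ∃ a : ℤ_[p], PadicInt.toZMod a = s :=
    ⟨((s.val : ℕ) : ℤ_[p]), by rw [map_natCast, ZMod.natCast_zmod_val]⟩
  set F : Polynomial ℤ_[p] := Polynomial.X ^ 2 - Polynomial.C u with hF
  have h1 : Polynomial.aeval a F = a ^ 2 - u := by
    simp [hF]
  have h2 : Polynomial.aeval a (Polynomial.derivative F) = 2 * a := by
    rw [hF]
    simp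
    norm_num
  have hs0 : s ≠ 0 := by
    rintro rfl
    apply h0
    rw [hs]
    ring
  have n1 : ‖a ^ 2 - u‖ < 1 := by
    rw [PadicInt.norm_lt_one_iff_dvd, ← toZMod_eq_zero, map_sub, map_pow, ha, hs]
    ring
  have n2 : ‖2 * a‖ = 1 := by
    by_contra hne
    have h3 : ‖2 * a‖ < 1 := lt_of_le_of_ne (PadicInt.norm_le_one _) hne
    rw [PadicInt.norm_lt_one_iff_dvd, ← toZMod_eq_zero, map_mul, map_ofNat, ha] at h3
    rcases mul_eq_zero.1 h3 with h4 | h4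
    · exact two_ne hp2 h4
    · exact hs0 h4
  obtain ⟨z, hz, -⟩ := hensels_lemma (F := F) (a := a) (by rw [h1, h2, n2, one_pow]; exact n1)
  refine ⟨z, ?_⟩
  rw [hF, map_sub, map_pow, Polynomial.aeval_X, Polynomial.aeval_C] at hz
  have h3 : z ^ 2 - u = 0 := hz
  linear_combination h3

/-- an integer which is a nonzero square modulo `p` is a square in `ℚ_p` -/
theorem sqQp {p : ℕ} [hp : Fact p.Prime] (hp2 : p ≠ 2) {d : ℤ} (hpd : ¬ (p : ℤ) ∣ d)
    (h : IsSquare (d : ZMod p)) : IsSquare (d : ℚ_[p]) := by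
  obtain ⟨v, hv⟩ := sqZp hp2 (d : ℤ_[p])
    (by rw [map_intCast, Ne, ZMod.intCast_zmod_eq_zero_iff_dvd]; exact hpd)
    (by rw [map_intCast]; exact h)
  refine ⟨(v : ℚ_[p]), ?_⟩
  have h1 := congrArg (fun x : ℤ_[p] => (x : ℚ_[p])) hv
  push_cast at h1
  exact h1.symm

theorem split_ndvd {p : ℕ} [hp : Fact p.Prime] (hp2 : p ≠ 2) {a b D d : ℤ} (hd : Squarefree d)
    (hD : Squarefree D) (hpD : (p : ℤ) ∣ D) (hpd : ¬ (p : ℤ) ∣ d) {β : ZMod p}
    (hβ : (b : ZMod p) = β ^ 2) (hβ0 : β ≠ 0) :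
    QSolv ℚ_[p] (a * D) (b * D ^ 2) d ↔ IsSquare (d : ZMod p) :=
  ⟨fun h => (lsol_of_qq hd h).sq hD hpd hpD hβ hβ0, fun h => qq_sq (sqQp hp2 hpd h)⟩

/-- the quadratic symbol, additively -/
noncomputable def nzz {p : ℕ} (x : ZMod p) : ZMod 2 := open Classical in if IsSquare x then 0 else 1

theorem nzz_zero_iff {p : ℕ} (x : ZMod p) : nzz x = 0 ↔ IsSquare x := by
  unfold nzz
  split_ifs with h <;> simp [h]

theorem nzz_mul {p : ℕ} [hp : Fact p.Prime] {x y : ZMod p} (hx : x ≠ 0) (hy : y ≠ 0) :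
    nzz (x * y) = nzz x + nzz y := by
  have h1 := quadraticChar_one_iff_isSquare hx
  have h2 := quadraticChar_one_iff_isSquare hy
  have h3 := quadraticChar_one_iff_isSquare (mul_ne_zero hx hy)
  have h4 : quadraticChar (ZMod p) (x * y) = quadraticChar (ZMod p) x * quadraticChar (ZMod p) y :=
    map_mul _ _ _
  unfold nzz
  rw [← h1, ← h2, ← h3, h4]
  rcases quadraticChar_dichotomy hx with a | a <;> rcases quadraticChar_dichotomy hy with b | b <;>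
    rw [a, b] <;> norm_num
  decide

theorem split_dvd {p : ℕ} [hp : Fact p.Prime] (hp2 : p ≠ 2) {a b D1 d1 : ℤ}
    (hd : Squarefree (p * d1)) (hD : Squarefree (p * D1)) (hb : (b : ZMod p) ≠ 0)
    (ρ : ℤ_[p]) (hρ : ρ ^ 2 + a * ρ + b = 0)
    (hsame : ∀ x : ZMod p, x ^ 2 + a * x + b = 0 → nzz x = nzz (PadicInt.toZMod ρ)) :
    QSolv ℚ_[p] (a * (p * D1)) (b * (p * D1) ^ 2) (p * d1) ↔
      nzz (d1 : ZMod p) + nzz (D1 : ZMod p) + nzz (PadicInt.toZMod ρ) = 0 := by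
  have hp0 : (p : ℤ) ≠ 0 := by exact_mod_cast hp.out.ne_zero
  have hne : ∀ x : ZMod p, x ^ 2 + a * x + b = 0 → x ≠ 0 := by
    rintro x hx rfl
    apply hb
    linear_combination hx
  have hρm : (PadicInt.toZMod ρ) ^ 2 + a * (PadicInt.toZMod ρ) + b = 0 := by
    have h1 := congrArg (PadicInt.toZMod (p := p)) hρ
    simp only [map_add, map_mul, map_pow, map_intCast, map_zero] at h1
    exact h1
  have hρ0 := hne _ hρm
  have hqP : Prime (p : ℤ) := Nat.prime_iff_prime_int.1 hp.out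
  have nsq : ∀ z : ℤ, Squarefree (p * z) → (z : ZMod p) ≠ 0 := by
    intro z hz h0
    rw [ZMod.intCast_zmod_eq_zero_iff_dvd] at h0
    obtain ⟨k, hk⟩ := h0
    exact hqP.not_isUnit (hz p ⟨k, by rw [hk]; ring⟩)
  have hd1 := nsq d1 hd
  have hD1 := nsq D1 hD
  constructor
  · intro h
    obtain ⟨d1', M1, hdd, hMM, k1, w, e, k2, k3⟩ := (lsol_of_qq hd h).root hd hD
      (Dvd.intro _ rfl) (Dvd.intro _ rfl)
    obtain rfl : d1 = d1' := mul_left_cancel₀ hp0 hdd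
    obtain rfl : D1 = M1 := mul_left_cancel₀ hp0 hMM
    set X : ZMod p := (d1 : ZMod p) * w ^ 2 / ((D1 : ZMod p) * e ^ 2) with hX
    have hroot : X ^ 2 + a * X + b = 0 := by
      rw [hX]
      field_simp
      linear_combination k3
    have hX0 := hne X hroot
    have h1 : (d1 : ZMod p) * (D1 : ZMod p) * X = ((d1 : ZMod p) * w / e) * ((d1 : ZMod p) * w / e) := by
      rw [hX]
      field_simp
    have h2 : nzz ((d1 : ZMod p) * (D1 : ZMod p) * X) = 0 := (nzz_zero_iff _).2 ⟨_, h1⟩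
    rw [nzz_mul (mul_ne_zero hd1 hD1) hX0, nzz_mul hd1 hD1, hsame X hroot] at h2
    exact h2
  · intro h
    rw [← nzz_mul hd1 hD1, ← nzz_mul (mul_ne_zero hd1 hD1) hρ0, nzz_zero_iff] at h
    obtain ⟨v, hv⟩ := sqZp hp2 ((d1 : ℤ_[p]) * D1 * ρ)
      (by simp only [map_mul, map_intCast]; exact mul_ne_zero (mul_ne_zero hd1 hD1) hρ0)
      (by simp only [map_mul, map_intCast]; exact h)
    have hv' : (v : ℚ_[p]) * v = (d1 : ℚ_[p]) * D1 * ρ := by
      have h1 := congrArg (fun x : ℤ_[p] => (x : ℚ_[p])) hv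
      push_cast at h1
      exact h1
    have hρ' : (ρ : ℚ_[p]) ^ 2 + a * ρ + b = 0 := by
      have h1 := congrArg (fun x : ℤ_[p] => (x : ℚ_[p])) hρ
      push_cast at h1
      exact h1
    have hd10 : (d1 : ℚ_[p]) ≠ 0 := by
      have : d1 ≠ 0 := by
        rintro rfl
        apply hd1
        simp
      exact_mod_cast this
    have hpq : (p : ℚ_[p]) ≠ 0 := by exact_mod_cast hp.out.ne_zero
    refine ⟨0, v / d1, 1, Or.inr one_ne_zero, ?_⟩
    push_cast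
    have h2 : ((v : ℚ_[p]) / d1) ^ 2 = D1 * ρ / d1 := by
      rw [div_pow, sq, hv']
      field_simp
    have h3 : ((v : ℚ_[p]) / d1) ^ 4 = (D1 * ρ / d1) ^ 2 := by
      rw [← h2]; ring
    rw [h2, h3]
    field_simp
    linear_combination (-(D1 : ℚ_[p]) ^ 2 * p) * hρ'

/-- an inert prime does not divide `d` -/
theorem inert_dvd {q : ℕ} {a b : ℤ} [hq : Fact q.Prime]
    (hc : ¬ IsSquare ((a ^ 2 - 4 * b : ℤ) : ZMod q)) {M d : ℤ} (h : QSolv ℚ_[q] (a * M) (b * M ^ 2) d)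
    (hd : Squarefree d) (hM : Squarefree M) (hqM : (q : ℤ) ∣ M) : ¬ (q : ℤ) ∣ d := by
  intro hqd
  obtain ⟨d1, M1, -, -, k1, w, e, k2, k3⟩ := (lsol_of_qq hd h).root hd hM hqd hqM
  set z : ZMod q := (M1 : ZMod q) * e ^ 2 with hz
  have hz0 : z ≠ 0 := mul_ne_zero k1 (pow_ne_zero 2 k2)
  set u : ZMod q := (d1 : ZMod q) * w ^ 2 with hu
  apply hc
  refine ⟨(2 * u + a * z) / z, ?_⟩
  rw [div_mul_div_comm, eq_div_iff (mul_ne_zero hz0 hz0)]
  push_cast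
  linear_combination -4 * k3

/-- an inert prime which does not divide `d`: `b = 2 c²` or so -/
theorem inert_ndvd {q : ℕ} {a b D d c : ℤ} [hq : Fact q.Prime] (hq2 : q ≠ 2)
    (h2 : ¬ IsSquare (2 : ZMod q)) (hb : b * D ^ 2 = 2 * c ^ 2) (hqd : ¬ (q : ℤ) ∣ d) :
    QSolv ℚ_[q] (a * D) (b * D ^ 2) d := by
  have hd0 : (d : ZMod q) ≠ 0 := by
    rw [Ne, ZMod.intCast_zmod_eq_zero_iff_dvd]; exact hqd
  have h20 := two_ne (p := q) hq2
  by_cases hs : IsSquare (d : ZMod q)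
  · exact qq_sq (sqQp hq2 hqd hs)
  · have h3 : nzz ((2 : ZMod q) * (d : ZMod q)) = 0 := by
      rw [nzz_mul h20 hd0]
      have a1 : nzz (2 : ZMod q) = 1 := by unfold nzz; rw [if_neg h2]
      have a2 : nzz (d : ZMod q) = 1 := by unfold nzz; rw [if_neg hs]
      rw [a1, a2]
      decide
    rw [nzz_zero_iff] at h3
    have h4 : ¬ (q : ℤ) ∣ 2 * d := by
      intro h5
      rw [← ZMod.intCast_zmod_eq_zero_iff_dvd] at h5
      push_cast at h5
      exact mul_ne_zero h20 hd0 h5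
    obtain ⟨s, hs'⟩ := sqQp hq2 h4 (by push_cast; exact h3)
    have hdq : (d : ℚ_[q]) ≠ 0 := by
      have : d ≠ 0 := by
        rintro rfl
        exact hqd (dvd_zero _)
      exact_mod_cast this
    apply qq_sqb hdq
    refine ⟨s * c, ?_⟩
    have h6 : ((b * D ^ 2 : ℤ) : ℚ_[q]) = 2 * (c : ℚ_[q]) ^ 2 := by rw [hb]; push_cast; ring
    rw [h6]
    push_cast at hs'
    linear_combination ((c : ℚ_[q]) ^ 2) * hs'

end Pool.Agent.U358.GZ
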