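import Pool.Agent.U358.GZ.Loc

/-! Project GZ, package DSCN: the real place and the prime two. -/

set_option autoImplicit false
set_option linter.unusedVariables false

namespace Pool.Agent.U358.GZ

open Pool.Agent.U115.TP Pool.Agent.U962.GZ

theorem real1 {D d : ℤ} (hD : 0 < D) (hd : d ≠ 0) : QSolv ℝ (4 * D) (2 * D ^ 2) d := by
  have hDr : (0 : ℝ) < D := by exact_mod_cast hD
  rcases lt_or_gt_of_ne hd with h | h
  · have hr : (d : ℝ) < 0 := by exact_mod_cast h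
    have h1 : 0 ≤ -(2 * (D : ℝ) / d) := by
      rw [neg_nonneg]
      exact (div_neg_of_pos_of_neg (by linarith) hr).le
    have h2 : 0 ≤ -(2 * (D : ℝ) ^ 2 / d) := by
      rw [neg_nonneg]
      exact (div_neg_of_pos_of_neg (by positivity) hr).le
    refine ⟨Real.sqrt (-(2 * (D : ℝ) ^ 2 / d)), Real.sqrt (-(2 * (D : ℝ) / d)), 1,
      Or.inr one_ne_zero, ?_⟩
    have h3 : Real.sqrt (-(2 * (D : ℝ) / d)) ^ 4 = (-(2 * (D : ℝ) / d)) ^ 2 := by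
      rw [show (4 : ℕ) = 2 * 2 by norm_num, pow_mul, Real.sq_sqrt h1]
    rw [Real.sq_sqrt h2, h3, Real.sq_sqrt h1]
    push_cast
    have hr0 : (d : ℝ) ≠ 0 := hr.ne
    field_simp
    ring
  · apply qq_sq
    refine ⟨Real.sqrt d, ?_⟩
    rw [Real.mul_self_sqrt]
    exact_mod_cast h.le

theorem real2 {D d : ℤ} (hD : 0 < D) (hd : d ≠ 0) : QSolv ℝ (-8 * D) (8 * D ^ 2) d ↔ 0 < d := by
  have hDr : (0 : ℝ) < D := by exact_mod_cast hD
  constructor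
  · rintro ⟨N, M, e, hne, h⟩
    by_contra hcon
    have hr : (d : ℝ) < 0 := by
      have : d < 0 := by omega
      exact_mod_cast this
    push_cast at h
    have h1 : 8 * (D : ℝ) ^ 2 / d < 0 := div_neg_of_pos_of_neg (by positivity) hr
    have h2 : (d : ℝ) * M ^ 4 ≤ 0 := mul_nonpos_of_nonpos_of_nonneg hr.le (by positivity)
    have h3 : -8 * (D : ℝ) * M ^ 2 * e ^ 2 ≤ 0 := by
      have : 0 ≤ 8 * (D : ℝ) * M ^ 2 * e ^ 2 := by positivity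
      linarith
    have h4 : 8 * (D : ℝ) ^ 2 / d * e ^ 4 ≤ 0 :=
      mul_nonpos_of_nonpos_of_nonneg h1.le (by positivity)
    have h5 : 0 ≤ N ^ 2 := sq_nonneg N
    rcases hne with h6 | h6
    · have h7 : 0 < M ^ 4 := by positivity
      have h8 : (d : ℝ) * M ^ 4 < 0 := mul_neg_of_neg_of_pos hr h7
      linarith
    · have h7 : 0 < e ^ 4 := by positivity
      have h8 : 8 * (D : ℝ) ^ 2 / d * e ^ 4 < 0 := mul_neg_of_neg_of_pos h1 h7
      linarith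
  · intro h
    apply qq_sq
    refine ⟨Real.sqrt d, ?_⟩
    rw [Real.mul_self_sqrt]
    exact_mod_cast h.le

variable [Fact (Nat.Prime 2)]

theorem two1 {D d : ℤ} (hD : D % 2 = 1)
    (h : d % 8 = 1 ∨ d % 8 = 7 ∨ ∃ m, d = 2 * m ∧ (m % 8 = 1 ∨ m % 8 = 7)) :
    QSolv ℚ_[2] (4 * D) (2 * D ^ 2) d := by
  obtain ⟨k, hk⟩ : ∃ k, D = 2 * k + 1 := ⟨D / 2, by omega⟩
  have h2 : (2 : ℚ_[2]) ≠ 0 := two_ne_zero
  rcases h with h | h | ⟨m, rfl, h | h⟩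
  · exact qq_sq (sq_two h)
  · obtain ⟨c, hc⟩ := sq_two (a := -d) (by omega)
    obtain ⟨l, hl⟩ := sq_two (a := -1 + 4 * D - 2 * D ^ 2) (by
      have : -1 + 4 * D - 2 * D ^ 2 = 1 - 8 * (k * k) := by rw [hk]; ring
      omega)
    have hd0 : (d : ℚ_[2]) ≠ 0 := by
      have : d ≠ 0 := by omega
      exact_mod_cast this
    push_cast at hc hl
    refine ⟨c * l, 1, c, Or.inl one_ne_zero, ?_⟩
    have h3 : c ^ 2 = -(d : ℚ_[2]) := by rw [sq, ← hc]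
    have h4 : c ^ 4 = (d : ℚ_[2]) ^ 2 := by
      rw [show c ^ 4 = (c ^ 2) ^ 2 by ring, h3]; ring
    have h5 : l ^ 2 = -1 + 4 * (D : ℚ_[2]) - 2 * (D : ℚ_[2]) ^ 2 := by rw [sq, ← hl]
    rw [mul_pow, h3, h4, h5]
    push_cast
    field_simp
    ring
  · have hm0 : ((2 * m : ℤ) : ℚ_[2]) ≠ 0 := by
      have : 2 * m ≠ 0 := by omega
      exact_mod_cast this
    apply qq_sqb hm0
    obtain ⟨s, hs⟩ := sq_two h
    refine ⟨2 * D * s, ?_⟩
    push_cast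
    rw [hs]
    ring
  · obtain ⟨c, hc⟩ := sq_two (a := -m) (by omega)
    obtain ⟨l, hl⟩ := sq_two (a := -2 + 4 * D - D ^ 2) (by
      have h3 : -2 + 4 * D - D ^ 2 = 1 - 4 * (k * (k - 1)) := by rw [hk]; ring
      have h4 : Even (k * (k - 1)) := Int.even_mul_pred_self k
      obtain ⟨j, hj⟩ := h4
      omega)
    have hm0 : (m : ℚ_[2]) ≠ 0 := by
      have : m ≠ 0 := by omega
      exact_mod_cast this
    push_cast at hc hl
    refine ⟨c * l, 1, c, Or.inl one_ne_zero, ?_⟩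
    have h3 : c ^ 2 = -(m : ℚ_[2]) := by rw [sq, ← hc]
    have h4 : c ^ 4 = (m : ℚ_[2]) ^ 2 := by
      rw [show c ^ 4 = (c ^ 2) ^ 2 by ring, h3]; ring
    have h5 : l ^ 2 = -2 + 4 * (D : ℚ_[2]) - (D : ℚ_[2]) ^ 2 := by rw [sq, ← hl]
    rw [mul_pow, h3, h4, h5]
    push_cast
    field_simp
    ring

theorem sq_mod8 (E V : ZMod 8) (h : E * V = 1) : E ^ 2 = 1 := by
  revert E V
  decide

theorem two2_neg {D d : ℤ} (hD : D % 2 = 1) (hd : Squarefree d)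
    (h : d % 8 = 7 ∨ ∃ m, d = 2 * m ∧ m % 8 = 7) : ¬ QSolv ℚ_[2] (-8 * D) (8 * D ^ 2) d := by
  intro hq
  obtain ⟨w, e, N, hwe, h1⟩ := lsol_of_qq hd hq
  have hP := PadicInt.prime_p (p := 2)
  push_cast at h1 hP hwe
  have h2 : (2 : ℤ_[2]) ≠ 0 := two_ne_zero
  let φ : ℤ_[2] →+* ZMod 8 := (PadicInt.toZModPow 3 : ℤ_[2] →+* ZMod (2 ^ 3))
  have h8 : (8 : ZMod 8) = 0 := rfl
  have hD2 : ((D : ℤ) : ZMod 8) ^ 2 = 1 := by
    have h3 : D % 8 = 1 ∨ D % 8 = 3 ∨ D % 8 = 5 ∨ D % 8 = 7 := by omega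
    have h4 : ((D : ℤ) : ZMod 8) = ((D % 8 : ℤ) : ZMod 8) := (ZMod.intCast_mod D 8).symm
    rw [h4]
    rcases h3 with h3 | h3 | h3 | h3 <;> rw [h3] <;> decide
  have hunit : ∀ x : ℤ_[2], ¬ (2 : ℤ_[2]) ∣ x → φ x ^ 2 = 1 := by
    intro x hx
    have hx' : IsUnit x := unit_of (by push_cast; exact hx)
    obtain ⟨v, hv⟩ := hx'.exists_right_inv
    exact sq_mod8 (φ x) (φ v) (by rw [← map_mul, hv, map_one])
  have hno : ∀ n : ZMod 8, (7 : ZMod 8) * n ^ 2 ≠ 1 := by decide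
  have hcast : ∀ m : ℤ, m % 8 = 7 → ((m : ℤ) : ZMod 8) = 7 := by
    intro m hm
    have h4 : ((m : ℤ) : ZMod 8) = ((m % 8 : ℤ) : ZMod 8) := (ZMod.intCast_mod m 8).symm
    rw [h4, hm]
    rfl
  have hodd : ∀ m : ℤ, m % 2 = 1 → ¬ (2 : ℤ_[2]) ∣ (m : ℤ_[2]) := by
    intro m hm hdv
    have h3 : ((2 : ℕ) : ℤ_[2]) ∣ (m : ℤ_[2]) := by push_cast; exact hdv
    rw [dvd_int] at h3
    push_cast at h3
    omega
  rcases h with h | ⟨m, rfl, h⟩
  · by_cases hw : (2 : ℤ_[2]) ∣ w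
    · have he : ¬ (2 : ℤ_[2]) ∣ e := fun he => hwe ⟨hw, he⟩
      obtain ⟨u, rfl⟩ := hw
      have a1 : (d : ℤ_[2]) * N ^ 2 = 2 * (4 * (2 * (d : ℤ_[2]) ^ 2 * u ^ 4 -
          4 * D * d * u ^ 2 * e ^ 2 + D ^ 2 * e ^ 4)) := by
        linear_combination h1
      obtain ⟨n, rfl⟩ := hP.dvd_of_dvd_pow ((hP.dvd_or_dvd ⟨_, a1⟩).resolve_left (hodd d (by omega)))
      have a2 : (d : ℤ_[2]) * n ^ 2 = 2 * (2 * (d : ℤ_[2]) ^ 2 * u ^ 4 -
          4 * D * d * u ^ 2 * e ^ 2 + D ^ 2 * e ^ 4) := by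
        apply mul_left_cancel₀ (mul_ne_zero h2 h2)
        linear_combination a1
      obtain ⟨n', rfl⟩ := hP.dvd_of_dvd_pow ((hP.dvd_or_dvd ⟨_, a2⟩).resolve_left (hodd d (by omega)))
      have a3 : (D : ℤ_[2]) ^ 2 * e ^ 4 = 2 * (d * n' ^ 2 - (d : ℤ_[2]) ^ 2 * u ^ 4 +
          2 * D * d * u ^ 2 * e ^ 2) := by
        apply mul_left_cancel₀ h2
        linear_combination -a2
      rcases hP.dvd_or_dvd ⟨_, a3⟩ with h5 | h5
      · exact hodd D hD (hP.dvd_of_dvd_pow h5)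
      · exact he (hP.dvd_of_dvd_pow h5)
    · have hw2 := hunit w hw
      have b2 := congrArg φ h1
      simp only [map_mul, map_add, map_sub, map_neg, map_pow, map_ofNat, map_intCast] at b2
      rw [hcast d h, h8] at b2
      apply hno (φ N)
      rw [b2, show φ w ^ 4 = (φ w ^ 2) ^ 2 by ring, hw2]
      simp only [neg_zero, zero_mul, add_zero]
      decide
  · push_cast at h1
    have a1 : (m : ℤ_[2]) * N ^ 2 = 2 * ((m : ℤ_[2]) ^ 2 * w ^ 4 -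
        4 * D * m * w ^ 2 * e ^ 2 + 2 * D ^ 2 * e ^ 4) := by
      apply mul_left_cancel₀ h2
      linear_combination h1
    obtain ⟨n, rfl⟩ := hP.dvd_of_dvd_pow ((hP.dvd_or_dvd ⟨_, a1⟩).resolve_left (hodd m (by omega)))
    have a2 : (m : ℤ_[2]) ^ 2 * w ^ 4 = 2 * (m * n ^ 2 + 2 * D * m * w ^ 2 * e ^ 2 -
        D ^ 2 * e ^ 4) := by
      apply mul_left_cancel₀ h2
      linear_combination -a1
    have hw : (2 : ℤ_[2]) ∣ w := by
      rcases hP.dvd_or_dvd ⟨_, a2⟩ with h5 | h5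
      · exact absurd (hP.dvd_of_dvd_pow h5) (hodd m (by omega))
      · exact hP.dvd_of_dvd_pow h5
    have he : ¬ (2 : ℤ_[2]) ∣ e := fun he => hwe ⟨hw, he⟩
    obtain ⟨u, rfl⟩ := hw
    have a3 : (m : ℤ_[2]) * n ^ 2 = 8 * (m : ℤ_[2]) ^ 2 * u ^ 4 - 8 * D * m * u ^ 2 * e ^ 2 +
        D ^ 2 * e ^ 4 := by
      apply mul_left_cancel₀ h2
      linear_combination -a2
    have b2 := congrArg φ a3
    simp only [map_mul, map_add, map_sub, map_neg, map_pow, map_ofNat, map_intCast] at b2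
    rw [hcast m h, h8, hD2, show φ e ^ 4 = (φ e ^ 2) ^ 2 by ring, hunit e he] at b2
    apply hno (φ n)
    rw [b2]
    simp only [zero_mul, sub_zero, zero_add]
    decide

theorem two2_pos {D d : ℤ} (h : d % 8 = 1 ∨ ∃ m, d = 2 * m ∧ m % 8 = 1) :
    QSolv ℚ_[2] (-8 * D) (8 * D ^ 2) d := by
  rcases h with h | ⟨m, rfl, h⟩
  · exact qq_sq (sq_two h)
  · have hm0 : ((2 * m : ℤ) : ℚ_[2]) ≠ 0 := by
      have : 2 * m ≠ 0 := by omega
      exact_mod_cast this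
    apply qq_sqb hm0
    obtain ⟨s, hs⟩ := sq_two h
    refine ⟨4 * D * s, ?_⟩
    push_cast
    rw [hs]
    ring

end Pool.Agent.U358.GZ
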